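import Pool.Agent.Y269.CT.Top

set_option autoImplicit false
set_option linter.unusedVariables false

/-! Continuum many coarsely transitive graphs of bounded degree, no two of them quasi-isometric,
without any cobounded quasi-action of a group. -/

namespace Pool.Agent.Results.MP_8f2dc9_al.ContinuumManyGraphs

open Pool.Agent.Y269.CT
open Pool.Agent.H536R3 (KK st XX connected_XX)

universe u v w

/-- There is a family of connected graphs indexed by the real numbers, all degrees finite and at
most `14`, every graph coarsely transitive, no two different ones quasi-isometric, such that no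
graph of the family has a cobounded quasi-action of any group, none is quasi-isometric to a
pseudo-metric space whose isometries act coboundedly, and none is quasi-isometric to a connected
vertex-transitive graph. -/
theorem result :
    ∃ (V : ℝ → Type) (X : ∀ r : ℝ, SimpleGraph (V r)),
      (∀ r, (X r).Connected) ∧
      (∀ r (x : V r), ((X r).neighborSet x).Finite ∧ ((X r).neighborSet x).ncard ≤ 14) ∧
      (∀ r, CoarselyTransitive (X r)) ∧
      (∀ r r', r ≠ r' → ¬ QuasiIsometric (pd (X r)) (pd (X r'))) ∧
      (∀ r (H : Type w) [Group H] (K C : ℝ), 1 ≤ K → 0 ≤ C → ∀ f : H → V r → V r,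
        ¬ CoboundedQuasiAction (X r) H K C f) ∧
      (∀ r (Y : Type v) [PseudoMetricSpace Y] (B : ℝ),
        (∀ y z : Y, ∃ e : Y ≃ᵢ Y, dist (e y) z ≤ B) →
        ¬ QuasiIsometric (pd (X r)) (dist : Y → Y → ℝ)) ∧
      ∀ r (W : Type u) (Y : SimpleGraph W), Y.Connected → VertexTransitive Y →
        ¬ QuasiIsometric (pd (X r)) (pd Y) := by
  obtain ⟨p⟩ := exists_par
  have hi : ∀ r, Irrational (p r).1 := fun r => (p r).2.1
  have h0 : ∀ r, 0 < (p r).1 := fun r => (p r).2.2.1
  have h1 : ∀ r, (p r).1 < 1 := fun r => (p r).2.2.2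
  refine ⟨fun r => KK (st (p r).1) × ℤ, fun r => XX (st (p r).1), fun r => connected_XX _,
    fun r x => deg_XX (h0 r) (h1 r) x, fun r => coarse_XX (h0 r) (h1 r), ?_, ?_, ?_, ?_⟩
  · intro r r' hne h
    exact hne (p.injective (Subtype.ext (eq_of_qi (h0 r) (h1 r) (h0 r') (h1 r') h)))
  · intro r H _ K C hK hC f
    exact no_quasi_action (hi r) (h0 r) (h1 r) H K C hK hC f
  · intro r Y _ B hB
    exact no_space (hi r) (h0 r) (h1 r) Y B hB
  · intro r W Y hY ht
    refine no_graph (hi r) (h0 r) (h1 r) W Y hY 0 (fun y z => ?_)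
    obtain ⟨e, he⟩ := ht y z
    exact ⟨e, by rw [he, SimpleGraph.dist_self]⟩

end Pool.Agent.Results.MP_8f2dc9_al.ContinuumManyGraphs
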